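import Pool.Agent.ACK.StmtsC

/-!
# Squad ACK, row NRA: normal names
-/

set_option autoImplicit false

namespace Pool.Agent.ACK.H82

open Pool.Agent.ACK Pool.Agent.ACK.C

theorem cnt_eq (e : ℕ) (r : List Tk) : cnt e r = (r.map Prod.fst).count e := by
  induction r with
  | nil => rfl
  | cons t r ih =>
    unfold cnt
    rw [List.map_cons, List.count_cons, ← ih]
    cases h : (t.1 == e) <;> simp

theorem count_inj (g : ℕ → ℕ) (x : ℕ) (l : List ℕ) (h : ∀ y ∈ l, g y = g x → y = x) :
    (l.map g).count (g x) = l.count x := by
  induction l with
  | nil => rfl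
  | cons y l ih =>
    rw [List.map_cons, List.count_cons, List.count_cons,
      ih (fun z hz => h z (List.mem_cons_of_mem _ hz))]
    by_cases e : y = x
    · simp [e]
    · have hg : g y ≠ g x := fun he => e (h y List.mem_cons_self he)
      simp [e, hg]

theorem te_self (t : Tk) : te t t = true := by simp [te]

theorem main (r : List Tk) (h2 : ∀ e, (r.map Prod.fst).count e ≤ 2)
    (h6 : (r.map Prod.fst).toFinset.card ≤ 6) :
    ∃ (g : ℕ → ℕ) (φ : ℕ → Bool), (∀ t ∈ r, ∀ t' ∈ r, g t.1 = g t'.1 → t.1 = t'.1) ∧
      (∀ t ∈ r, g t.1 < (r.map Prod.fst).toFinset.card) ∧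
      nn (r.map (fun t => (g t.1, xor (φ t.1) t.2))) = (r.map Prod.fst).toFinset.card ∧
      nz (r.map (fun t => (g t.1, xor (φ t.1) t.2))) = true := by
  induction r with
  | nil =>
    exact ⟨id, fun _ => false, by simp, by simp, by simp [nn], by simp [nz]⟩
  | cons t r ih =>
    have h2' : ∀ e, (r.map Prod.fst).count e ≤ 2 := fun e =>
      le_trans (by rw [List.map_cons, List.count_cons]; omega) (h2 e)
    have hsub : (r.map Prod.fst).toFinset.card ≤ ((t :: r).map Prod.fst).toFinset.card := by
      rw [List.map_cons, List.toFinset_cons]
      exact Finset.card_le_card (Finset.subset_insert _ _)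
    obtain ⟨g, φ, hi, hl, hn, hz⟩ := ih h2' (le_trans hsub h6)
    by_cases hm : t.1 ∈ r.map Prod.fst
    · have hc : ((t :: r).map Prod.fst).toFinset.card = (r.map Prod.fst).toFinset.card := by
        rw [List.map_cons, List.toFinset_cons, Finset.insert_eq_self.2 (List.mem_toFinset.2 hm)]
      obtain ⟨u, hu, hut⟩ := List.mem_map.1 hm
      have hgt : g t.1 < (r.map Prod.fst).toFinset.card := by rw [← hut]; exact hl u hu
      refine ⟨g, φ, ?_, ?_, ?_, ?_⟩
      · intro a ha b hb hab
        have key : ∀ x ∈ t :: r, ∃ y ∈ r, y.1 = x.1 := by
          intro x hx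
          rcases List.mem_cons.1 hx with rfl | hx
          · exact ⟨u, hu, hut⟩
          · exact ⟨x, hx, rfl⟩
        obtain ⟨a', ha', ea⟩ := key a ha
        obtain ⟨b', hb', eb⟩ := key b hb
        rw [← ea, ← eb] at hab ⊢
        exact hi a' ha' b' hb' hab
      · intro a ha
        rw [hc]
        rcases List.mem_cons.1 ha with rfl | ha
        · exact hgt
        · exact hl a ha
      · rw [List.map_cons, hc]
        unfold nn
        rw [hn]
        exact max_eq_right hgt
      · rw [List.map_cons]
        unfold nz
        rw [hz, Bool.true_and, List.any_eq_true]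
        refine ⟨(g t.1, xor (φ t.1) t.2), ?_, te_self _⟩
        unfold cand
        refine List.mem_append_right _ (List.mem_flatMap.2 ⟨g t.1, ?_, ?_⟩)
        · rw [hn]; exact List.mem_range.2 hgt
        · have h1 : cnt (g t.1) (r.map (fun t => (g t.1, xor (φ t.1) t.2))) = 1 := by
            rw [cnt_eq, List.map_map]
            have e1 : (Prod.fst ∘ fun t : Tk => (g t.1, xor (φ t.1) t.2)) = g ∘ Prod.fst := rfl
            rw [e1, ← List.map_map, count_inj g t.1]
            · have ha := h2 t.1
              rw [List.map_cons, List.count_cons_self] at ha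
              have hb : 0 < (r.map Prod.fst).count t.1 := List.count_pos_iff.2 hm
              omega
            · intro y hy hyt
              obtain ⟨v, hv, rfl⟩ := List.mem_map.1 hy
              rw [← hut] at hyt ⊢
              exact hi v hv u hu hyt
          rw [h1]
          cases hx : (xor (φ t.1) t.2) <;> simp
    · have hc : ((t :: r).map Prod.fst).toFinset.card = (r.map Prod.fst).toFinset.card + 1 := by
        rw [List.map_cons, List.toFinset_cons, Finset.card_insert_of_notMem]
        exact fun h => hm (List.mem_toFinset.1 h)
      have hlt : (r.map Prod.fst).toFinset.card < 6 := by omega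
      have hne : ∀ a ∈ r, a.1 ≠ t.1 := fun a ha e => hm (e ▸ List.mem_map_of_mem (f := Prod.fst) ha)
      have hmap : (r.map (fun a : Tk => (Function.update g t.1 (r.map Prod.fst).toFinset.card a.1,
          xor (Function.update φ t.1 t.2 a.1) a.2))) =
          r.map (fun a => (g a.1, xor (φ a.1) a.2)) := by
        refine List.map_congr_left fun a ha => ?_
        rw [Function.update_of_ne (hne a ha), Function.update_of_ne (hne a ha)]
      refine ⟨Function.update g t.1 (r.map Prod.fst).toFinset.card,
        Function.update φ t.1 t.2, ?_, ?_, ?_, ?_⟩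
      · intro a ha b hb hab
        rcases List.mem_cons.1 ha with ea | ha1 <;> rcases List.mem_cons.1 hb with eb | hb1
        · rw [ea, eb]
        · rw [ea, Function.update_self, Function.update_of_ne (hne b hb1)] at hab
          exact absurd hab (ne_of_gt (hl b hb1))
        · rw [eb, Function.update_self, Function.update_of_ne (hne a ha1)] at hab
          exact absurd hab (ne_of_lt (hl a ha1))
        · rw [Function.update_of_ne (hne b hb1), Function.update_of_ne (hne a ha1)] at hab
          exact hi a ha1 b hb1 hab
      · intro a ha
        rw [hc]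
        rcases List.mem_cons.1 ha with rfl | ha
        · rw [Function.update_self]; exact Nat.lt_succ_self _
        · rw [Function.update_of_ne (hne a ha)]
          exact Nat.lt_succ_of_lt (hl a ha)
      · rw [List.map_cons, hmap, hc]
        unfold nn
        rw [hn, Function.update_self]
        exact max_eq_left (Nat.le_succ _)
      · rw [List.map_cons, hmap]
        unfold nz
        rw [hz, Bool.true_and, List.any_eq_true]
        refine ⟨_, ?_, te_self _⟩
        unfold cand
        refine List.mem_append_left _ ?_
        rw [hn]
        have hb : Nat.blt (r.map Prod.fst).toFinset.card 6 = true := by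
          rw [Nat.blt_eq]; exact hlt
        rw [hb, cond_true, Function.update_self, Function.update_self, Bool.xor_self]
        exact List.mem_singleton.2 rfl

theorem nra : NraStmt := by
  intro b hb h12
  have hcard : (b.map Prod.fst).toFinset.card = 6 := by
    have h := List.sum_toFinset_count_eq_length (b.map Prod.fst)
    rw [List.length_map, h12] at h
    have h' : ∑ a ∈ (b.map Prod.fst).toFinset, (b.map Prod.fst).count a =
        ∑ a ∈ (b.map Prod.fst).toFinset, 2 :=
      Finset.sum_congr rfl fun x hx => hb x (List.mem_toFinset.1 hx)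
    rw [h', Finset.sum_const, smul_eq_mul] at h
    omega
  have hc2 : ∀ e, (b.reverse.map Prod.fst).count e ≤ 2 := by
    intro e
    rw [List.map_reverse, List.count_reverse]
    by_cases he : e ∈ b.map Prod.fst
    · exact (hb e he).le
    · rw [List.count_eq_zero_of_not_mem he]; omega
  have hcr : (b.reverse.map Prod.fst).toFinset.card = 6 := by
    rw [List.map_reverse, List.toFinset_reverse]; exact hcard
  obtain ⟨g, φ, hi, hl, -, hz⟩ := main b.reverse hc2 hcr.le
  refine ⟨g, φ, ?_, ?_, ?_⟩
  · intro t ht t' ht' e
    exact hi t (List.mem_reverse.2 ht) t' (List.mem_reverse.2 ht') e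
  · intro t ht
    have := hl t (List.mem_reverse.2 ht)
    rwa [hcr] at this
  · rw [← List.map_reverse]
    exact hz

end Pool.Agent.ACK.H82
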